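import Pool.Agent.PQP.StmtsC

/-!
# Table PQP, row CPT (helper5): compactness
-/

set_option autoImplicit false

open scoped InnerProductSpace Topology ContDiff Manifold
open MeasureTheory Filter Set

noncomputable section

namespace Pool.Agent.Helper5_PQP

open Pool.Agent.PQP Pool.Agent.Helper42_Paneitz Pool.Agent.Helper82_Vir Pool.Agent.FLX

theorem meas_om (w : S4) (ρ : ℝ) :
    MeasurableSet {y : S4 | -1 + ρ ≤ ⟪(w : E5), (y : E5)⟫_ℝ} := by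
  apply IsClosed.measurableSet
  exact isClosed_le continuous_const (by fun_prop)

theorem inner_le_of_dist (w w' x : S4) :
    ⟪(w' : E5), (x : E5)⟫_ℝ - dist w w' ≤ ⟪(w : E5), (x : E5)⟫_ℝ := by
  have h1 : ⟪(w' : E5) - (w : E5), (x : E5)⟫_ℝ ≤ ‖(w' : E5) - (w : E5)‖ * ‖(x : E5)‖ :=
    real_inner_le_norm _ _
  have h2 : ‖(x : E5)‖ = 1 := mem_sphere_zero_iff_norm.1 x.2
  rw [inner_sub_left, h2, mul_one] at h1
  have h3 : dist w w' = ‖(w' : E5) - (w : E5)‖ := by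
    rw [Subtype.dist_eq, dist_eq_norm, norm_sub_rev]
  rw [h3]
  linarith

theorem cpt_row (cpa : CpaStmt) (cpl : CplStmt) (eqc : EqcStmt) (asc : AscStmt)
    (cls : ClsStmt) : CptStmt := by
  intro r hr η hη
  by_contra hcon
  push Not at hcon
  have hr8 : 0 < r (1 / 8) := hr _ (by norm_num)
  obtain ⟨C, hC, hcpa⟩ := cpa (r (1 / 8)) hr8
  set δ : ℝ := min (1 / 8) (r (1 / 8)) with hδ
  have hδ0 : 0 < δ := lt_min (by norm_num) hr8
  have hδ8 : δ ≤ 1 / 8 := min_le_left _ _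
  have hδr : δ ≤ r (1 / 8) := min_le_right _ _
  set ρ : ℕ → ℝ := fun n => δ / ((n : ℝ) + 1) with hρ
  have hρ0 : ∀ n, 0 < ρ n := fun n => by
    have : (0 : ℝ) < (n : ℝ) + 1 := by positivity
    exact div_pos hδ0 this
  have hρδ : ∀ n, ρ n ≤ δ := fun n => by
    refine div_le_self hδ0.le ?_
    have : (0 : ℝ) ≤ (n : ℝ) := Nat.cast_nonneg n
    linarith
  have hρt : Tendsto ρ atTop (𝓝 0) := by
    have h := (tendsto_one_div_add_atTop_nhds_zero_nat (𝕜 := ℝ)).const_mul δ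
    rw [mul_zero] at h
    refine h.congr (fun n => ?_)
    simp only [hρ]
    rw [mul_one_div]
  have hex : ∀ n : ℕ, ∃ (w : S4) (W f : S4 → ℝ) (c : ℝ) (x : S4), Sol W f ∧ Bal f ∧ 0 < c ∧
      (∀ ε, ρ n ≤ ε → ∀ z, mas f z (r ε) ≤ ε) ∧
      (∀ x : S4, -1 + ρ n ≤ ⟪(w : E5), (x : E5)⟫_ℝ → |W x - c| ≤ ρ n * c) ∧
      -1 + η ≤ ⟪(w : E5), (x : E5)⟫_ℝ ∧ η < |msig * f x - 1| := by
    intro n
    obtain ⟨w, W, f, c, h1, h2, h3, h4, h5, x, h6, h7⟩ := hcon (ρ n) (hρ0 n)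
    exact ⟨w, W, f, c, x, h1, h2, h3, h4, h5, h6, h7⟩
  choose w W f c x h1 h2 h3 h4 h5 h6 h7 using hex
  have hB : ∀ n, ∃ B : ℝ, 1 / C ≤ B ∧ B ≤ C ∧
      (∀ x, f n x = B * (W n x / c n) * Real.exp (4 * pot (f n) x)) ∧
      ∫ x in {x : S4 | -1 + ρ n ≤ ⟪(w n : E5), (x : E5)⟫_ℝ}, f n x ^ 2 ∂sig ≤ C := by
    intro n
    refine hcpa (w n) (W n) (f n) (c n) (ρ n) (h1 n) (h3 n) (hρ0 n) ?_ ?_ ?_ ?_
    · linarith [hρδ n]
    · linarith [hρδ n]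
    · exact h4 n (1 / 8) (by linarith [hρδ n])
    · intro y hy
      have := h5 n y hy
      have h8 : ρ n * c n ≤ 1 / 8 * c n :=
        mul_le_mul_of_nonneg_right (by linarith [hρδ n]) (h3 n).le
      have := h3 n
      linarith
  choose B hB1 hB2 hB3 hB4 using hB
  set g : ℕ → S4 → ℝ := fun n y =>
    ({y : S4 | -1 + ρ n ≤ ⟪(w n : E5), (y : E5)⟫_ℝ}).indicator (f n) y with hg
  have hgm : ∀ n, Measurable (g n) := fun n =>
    ((h1 n).1.1.measurable).indicator (meas_om _ _)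
  have hg2 : ∀ n, (fun y => g n y ^ 2) =
      ({y : S4 | -1 + ρ n ≤ ⟪(w n : E5), (y : E5)⟫_ℝ}).indicator (fun y => f n y ^ 2) := by
    intro n
    funext y
    simp only [hg, Set.indicator_apply]
    split_ifs
    · rfl
    · simp
  have hgi : ∀ n, Integrable (fun y => g n y ^ 2) sig := by
    intro n
    rw [hg2 n]
    exact (integrable_cont ((h1 n).1.1.pow 2)).indicator (meas_om _ _)
  have hgC : ∀ n, ∫ y, g n y ^ 2 ∂sig ≤ C := by
    intro n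
    have h : ∫ y, g n y ^ 2 ∂sig =
        ∫ x in {x : S4 | -1 + ρ n ≤ ⟪(w n : E5), (x : E5)⟫_ℝ}, f n x ^ 2 ∂sig := by
      rw [← integral_indicator (meas_om _ _), ← hg2 n]
    rw [h]
    exact hB4 n
  obtain ⟨⟨C', hC', hE1⟩, hE2⟩ := eqc C hC.le
  -- subsequence for `w` and `B`
  obtain ⟨w₀, -, φ₁, hφ₁, hw₀⟩ := (isCompact_univ (X := S4)).tendsto_subseq
    (fun n => mem_univ (w n))
  obtain ⟨B₀, hB₀, φ₂, hφ₂, hBt⟩ := (isCompact_Icc (a := 1 / C) (b := C)).tendsto_subseq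
    (x := fun n => B (φ₁ n)) (fun n => ⟨hB1 (φ₁ n), hB2 (φ₁ n)⟩)
  obtain ⟨φ₃, U, hφ₃, hU, hVt⟩ := asc (fun n x => 4 * pot (g (φ₁ (φ₂ n))) x)
    ⟨4 * C', fun n x => by
      rw [abs_mul, abs_of_pos (by norm_num : (0 : ℝ) < 4)]
      have := (hE1 (g (φ₁ (φ₂ n))) (hgm _) (hgi _) (hgC _) x).2
      linarith⟩
    (fun ε hε => by
      obtain ⟨d, hd, hd2⟩ := hE2 (ε / 4) (by positivity)
      refine ⟨d, hd, fun n x x' hxx => ?_⟩
      have := hd2 (g (φ₁ (φ₂ n))) (hgm _) (hgi _) (hgC _) x x' hxx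
      rw [← mul_sub, abs_mul, abs_of_pos (by norm_num : (0 : ℝ) < 4)]
      linarith)
  set ψ : ℕ → ℕ := fun n => φ₁ (φ₂ (φ₃ n)) with hψ
  have hψt : Tendsto ψ atTop atTop :=
    hφ₁.tendsto_atTop.comp (hφ₂.tendsto_atTop.comp hφ₃.tendsto_atTop)
  have hw : Tendsto (fun n => w (ψ n)) atTop (𝓝 w₀) :=
    hw₀.comp (hφ₂.tendsto_atTop.comp hφ₃.tendsto_atTop)
  have hBt' : Tendsto (fun n => B (ψ n)) atTop (𝓝 B₀) := hBt.comp hφ₃.tendsto_atTop
  have hB₀pos : 0 < B₀ := lt_of_lt_of_le (by positivity) hB₀.1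
  obtain ⟨hS, hBal, hunif⟩ := cpl w₀ (fun n => w (ψ n)) (fun n => W (ψ n)) (fun n => f (ψ n))
    (fun n => c (ψ n)) (fun n => ρ (ψ n)) (fun n => B (ψ n)) U B₀ hw (hρt.comp hψt) hBt' hB₀pos
    hU (fun n => hρ0 _) (fun n => h3 _) (fun n => ⟨(h1 _).1, h2 _, hB3 _⟩)
    (fun n => h5 _)
    (fun ε hε => by
      refine ⟨r ε, hr ε hε, ?_⟩
      have h9 : ∀ᶠ n in atTop, ρ (ψ n) < ε :=
        (hρt.comp hψt).eventually (gt_mem_nhds hε)
      filter_upwards [h9] with n hn z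
      exact h4 (ψ n) ε hn.le z)
    (fun ε hε => hVt ε hε)
  have hconst : ∀ y, B₀ * Real.exp (U y) = 1 / msig := cls _ hS hBal
  set η' : ℝ := min (η / 2) (η / msig) with hη'
  have hη'0 : 0 < η' := lt_min (by positivity) (div_pos hη msig_pos)
  have hev1 := hunif η' hη'0
  have hev2 : ∀ᶠ n in atTop, dist (w (ψ n)) w₀ < η / 2 :=
    (tendsto_iff_dist_tendsto_zero.1 hw).eventually (gt_mem_nhds (by positivity))
  obtain ⟨n, hn1, hn2⟩ := (hev1.and hev2).exists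
  have hx1 : -1 + η' ≤ ⟪(w₀ : E5), (x (ψ n) : E5)⟫_ℝ := by
    have ha := inner_le_of_dist w₀ (w (ψ n)) (x (ψ n))
    have hb := h6 (ψ n)
    have hc : η' ≤ η / 2 := min_le_left _ _
    rw [dist_comm] at ha
    linarith
  have hx2 := hn1 (x (ψ n)) hx1
  rw [hconst] at hx2
  have hx3 := h7 (ψ n)
  have hx4 : msig * f (ψ n) (x (ψ n)) - 1 = msig * (f (ψ n) (x (ψ n)) - 1 / msig) := by
    rw [mul_sub, mul_one_div_cancel msig_ne]
  rw [hx4, abs_mul, abs_of_pos msig_pos] at hx3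
  have hx5 : msig * |f (ψ n) (x (ψ n)) - 1 / msig| ≤ msig * (η / msig) :=
    mul_le_mul_of_nonneg_left (hx2.trans (min_le_right _ _)) msig_pos.le
  rw [mul_div_cancel₀ _ msig_ne] at hx5
  linarith

end Pool.Agent.Helper5_PQP
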